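import Mathlib

/-!
# The graphical cycle polynomial of a chordal graph need not be real-rooted (MP_efc620_co)

The gem `K_1 + P_4` (a path with four vertices and a fifth vertex joined to all of them) is a
chordal graph on five vertices whose graphical cycle polynomial is
`x ^ 5 + 7 x ^ 4 + 13 x ^ 3 + 8 x ^ 2 + 2 x`.
If all its roots were real then Newton's inequality `3 * 8 ^ 2 ≥ 8 * 2 * 13` would hold.
-/

open Finset Polynomial

namespace Pool.Agent.Results.MP_efc620_co.GemGraph

/-- `G` is chordal: every cycle of length at least `4` has a chord, that is, an edge of `G` joining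
two vertices which are not consecutive on the cycle. A cycle of length `n` is given by an injective
map from `ZMod n` such that consecutive vertices are adjacent. -/
def Chordal {V : Type} (G : SimpleGraph V) : Prop :=
  ∀ n : ℕ, 4 ≤ n → ∀ c : ZMod n → V, Function.Injective c → (∀ i, G.Adj (c i) (c (i + 1))) →
    ∃ i j : ZMod n, j ≠ i + 1 ∧ i ≠ j + 1 ∧ G.Adj (c i) (c j)

/-- The number of cycles of a permutation, fixed points included, that is, the number of its
orbits. -/
noncomputable def numCycles {V : Type} (σ : Equiv.Perm V) : ℕ :=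
  {O : Set V | ∃ v, O = {w | σ.SameCycle v w}}.ncard

/-- The number of permutations with exactly `k` cycles which move vertices only along edges. -/
noncomputable def cycleCount {V : Type} (G : SimpleGraph V) (k : ℕ) : ℕ :=
  {σ : Equiv.Perm V | (∀ v, σ v ≠ v → G.Adj v (σ v)) ∧ numCycles σ = k}.ncard

/-- The graphical cycle polynomial (of the first kind), with complex coefficients. -/
noncomputable def cyclePoly {V : Type} [Fintype V] (G : SimpleGraph V) : ℂ[X] :=
  ∑ k ∈ Finset.Icc 1 (Fintype.card V), (cycleCount G k : ℂ[X]) * X ^ k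

/-- The gem: the path `0 - 1 - 2 - 3` and the vertex `4` joined to all of it. -/
def gem : SimpleGraph (Fin 5) where
  Adj i j := i ≠ j ∧ (i = 4 ∨ j = 4 ∨ i.val + 1 = j.val ∨ j.val + 1 = i.val)
  symm := ⟨by intro i j h; refine ⟨h.1.symm, ?_⟩; tauto⟩
  loopless := ⟨by intro i h; exact h.1 rfl⟩

instance : DecidableRel gem.Adj := fun i j =>
  inferInstanceAs (Decidable (i ≠ j ∧ (i = 4 ∨ j = 4 ∨ i.val + 1 = j.val ∨ j.val + 1 = i.val)))

/-- `v` is the least element of its orbit -/
def IsMin (σ : Equiv.Perm (Fin 5)) (v : Fin 5) : Prop :=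
  v ≤ σ v ∧ v ≤ σ (σ v) ∧ v ≤ σ (σ (σ v)) ∧ v ≤ σ (σ (σ (σ v))) ∧
    v ≤ σ (σ (σ (σ (σ v)))) ∧ v ≤ σ (σ (σ (σ (σ (σ v)))))

instance (σ : Equiv.Perm (Fin 5)) (v : Fin 5) : Decidable (IsMin σ v) := by
  unfold IsMin; infer_instance

theorem isMin_iff (σ : Equiv.Perm (Fin 5)) (v : Fin 5) :
    IsMin σ v ↔ ∀ w, σ.SameCycle v w → v ≤ w := by
  constructor
  · rintro ⟨h1, h2, h3, h4, h5, h6⟩ w hw
    obtain ⟨i, hi0, hi, rfl⟩ := hw.exists_pow_eq
    have hc : (σ.cycleOf v).support.card ≤ 5 := by
      simpa using Finset.card_le_univ (σ.cycleOf v).support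
    have hi6 : i ≤ 6 := by omega
    interval_cases i
    · simpa using h1
    · simpa [pow_succ] using h2
    · simpa [pow_succ] using h3
    · simpa [pow_succ] using h4
    · simpa [pow_succ] using h5
    · simpa [pow_succ] using h6
  · intro h
    have hs : ∀ i : ℕ, v ≤ (σ ^ i) v := fun i => h _ ⟨i, by simp⟩
    refine ⟨?_, ?_, ?_, ?_, ?_, ?_⟩
    · simpa using hs 1
    · simpa [pow_succ] using hs 2
    · simpa [pow_succ] using hs 3
    · simpa [pow_succ] using hs 4
    · simpa [pow_succ] using hs 5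
    · simpa [pow_succ] using hs 6

theorem numCycles_eq (σ : Equiv.Perm (Fin 5)) :
    numCycles σ = (univ.filter fun v => IsMin σ v).card := by
  classical
  unfold numCycles
  have himg : {O : Set (Fin 5) | ∃ v, O = {w | σ.SameCycle v w}} =
      (fun v => {w | σ.SameCycle v w}) '' {v | IsMin σ v} := by
    ext O
    constructor
    · rintro ⟨v, rfl⟩
      obtain ⟨m, hm, hmin⟩ := Finset.exists_min_image (univ.filter fun w => σ.SameCycle v w) id
        ⟨v, by simpa using Equiv.Perm.SameCycle.refl σ v⟩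
      simp only [mem_filter, mem_univ, true_and, id] at hm hmin
      refine ⟨m, (isMin_iff σ m).2 fun w hw => hmin w (hm.trans hw), ?_⟩
      ext w
      exact ⟨fun h => hm.trans h, fun h => hm.symm.trans h⟩
    · rintro ⟨v, -, rfl⟩
      exact ⟨v, rfl⟩
  rw [himg, Set.InjOn.ncard_image, ← Set.ncard_coe_finset]
  · congr 1
    ext v
    simp
  · intro v hv w hw h
    have h1 : σ.SameCycle v w := by
      have h2 : w ∈ {u | σ.SameCycle w u} := Equiv.Perm.SameCycle.refl σ w
      have h3 : {u | σ.SameCycle v u} = {u | σ.SameCycle w u} := h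
      rw [← h3] at h2
      exact h2
    exact le_antisymm ((isMin_iff σ v).1 hv w h1) ((isMin_iff σ w).1 hw v h1.symm)

theorem cycleCount_eq (k : ℕ) :
    cycleCount gem k = (univ.filter fun σ : Equiv.Perm (Fin 5) =>
      (∀ v, σ v ≠ v → gem.Adj v (σ v)) ∧ (univ.filter fun v => IsMin σ v).card = k).card := by
  unfold cycleCount
  rw [← Set.ncard_coe_finset]
  congr 1
  ext σ
  simp [numCycles_eq]

set_option maxRecDepth 100000 in
theorem count_values :
    (univ.filter fun σ : Equiv.Perm (Fin 5) =>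
      (∀ v, σ v ≠ v → gem.Adj v (σ v)) ∧ (univ.filter fun v => IsMin σ v).card = 1).card = 2 ∧
    (univ.filter fun σ : Equiv.Perm (Fin 5) =>
      (∀ v, σ v ≠ v → gem.Adj v (σ v)) ∧ (univ.filter fun v => IsMin σ v).card = 2).card = 8 ∧
    (univ.filter fun σ : Equiv.Perm (Fin 5) =>
      (∀ v, σ v ≠ v → gem.Adj v (σ v)) ∧ (univ.filter fun v => IsMin σ v).card = 3).card = 13 ∧
    (univ.filter fun σ : Equiv.Perm (Fin 5) =>
      (∀ v, σ v ≠ v → gem.Adj v (σ v)) ∧ (univ.filter fun v => IsMin σ v).card = 4).card = 7 ∧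
    (univ.filter fun σ : Equiv.Perm (Fin 5) =>
      (∀ v, σ v ≠ v → gem.Adj v (σ v)) ∧ (univ.filter fun v => IsMin σ v).card = 5).card = 1 := by
  decide +kernel

theorem cyclePoly_gem (z : ℂ) :
    (cyclePoly gem).eval z = z * (z ^ 4 + 7 * z ^ 3 + 13 * z ^ 2 + 8 * z + 2) := by
  unfold cyclePoly
  rw [Fintype.card_fin, show Finset.Icc 1 5 = {1, 2, 3, 4, 5} by rfl]
  rw [Finset.sum_insert (by decide), Finset.sum_insert (by decide), Finset.sum_insert (by decide),
    Finset.sum_insert (by decide), Finset.sum_singleton]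
  simp only [cycleCount_eq]
  obtain ⟨h1, h2, h3, h4, h5⟩ := count_values
  rw [h1, h2, h3, h4, h5]
  simp only [eval_add, eval_mul, eval_pow, eval_X, eval_natCast]
  push_cast
  ring

theorem chordal_gem : Chordal gem := by
  intro n hn c hc hadj
  have hn5 : n ≤ 5 := by
    have : NeZero n := ⟨by omega⟩
    have := Fintype.card_le_of_injective c hc
    simpa [ZMod.card] using this
  have key4 : ∀ c : Fin 4 → Fin 5, (∀ i, gem.Adj (c i) (c (i + 1))) → (c 0 ≠ c 2 ∧ c 1 ≠ c 3) →
      ∃ i j : Fin 4, j ≠ i + 1 ∧ i ≠ j + 1 ∧ gem.Adj (c i) (c j) := by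
    decide +kernel
  have key5 : ∀ c : Fin 5 → Fin 5, (∀ i, gem.Adj (c i) (c (i + 1))) →
      (c 0 ≠ c 2 ∧ c 1 ≠ c 3 ∧ c 2 ≠ c 4 ∧ c 3 ≠ c 0 ∧ c 4 ≠ c 1) →
      ∃ i j : Fin 5, j ≠ i + 1 ∧ i ≠ j + 1 ∧ gem.Adj (c i) (c j) := by
    decide +kernel
  have h45 : n = 4 ∨ n = 5 := by omega
  rcases h45 with rfl | rfl
  · have e : ∀ i j : Fin 4, i ≠ j → c i ≠ c j := fun i j h h' => h (hc h')
    exact key4 c hadj ⟨e 0 2 (by decide), e 1 3 (by decide)⟩
  · have e : ∀ i j : Fin 5, i ≠ j → c i ≠ c j := fun i j h h' => h (hc h')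
    exact key5 c hadj ⟨e 0 2 (by decide), e 1 3 (by decide), e 2 4 (by decide), e 3 0 (by decide),
      e 4 1 (by decide)⟩

/-- a non-real root -/
theorem exists_root : ∃ z : ℂ, z ^ 4 + 7 * z ^ 3 + 13 * z ^ 2 + 8 * z + 2 = 0 ∧ z.im ≠ 0 := by
  by_contra hcon
  push Not at hcon
  -- the quartic as a polynomial
  let q : ℂ[X] := X ^ 4 + C 7 * X ^ 3 + C 13 * X ^ 2 + C 8 * X + C 2
  have hq : q.Monic := by
    unfold q
    monicity!
  have hdeg : q.natDegree = 4 := by
    unfold q
    compute_degree!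
  have hs : q.Splits := IsAlgClosed.splits q
  have hcard : Multiset.card q.roots = 4 := by
    rw [← hdeg]
    exact hs.natDegree_eq_card_roots.symm
  obtain ⟨l, hl⟩ := Quot.exists_rep q.roots
  have hl' : q.roots = (l : Multiset ℂ) := hl.symm
  have hlen : l.length = 4 := by
    rw [hl'] at hcard
    simpa using hcard
  match l, hlen with
  | [a, b, c, d], _ =>
    have heval : ∀ x : ℂ, x ^ 4 + 7 * x ^ 3 + 13 * x ^ 2 + 8 * x + 2 =
        (x - a) * (x - b) * (x - c) * (x - d) := by
      intro x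
      have h1 := hs.eval_eq_prod_roots_of_monic hq x
      rw [hl'] at h1
      simp only [Multiset.map_coe, List.map_cons, List.map_nil, Multiset.prod_coe,
        List.prod_cons, List.prod_nil] at h1
      have h2 : q.eval x = x ^ 4 + 7 * x ^ 3 + 13 * x ^ 2 + 8 * x + 2 := by
        simp [q]
      rw [← h2, h1]
      ring
    have him : ∀ r : ℂ, (r = a ∨ r = b ∨ r = c ∨ r = d) → r.im = 0 := by
      intro r hr
      apply hcon
      rw [heval]
      rcases hr with rfl | rfl | rfl | rfl <;> ring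
    have ha := him a (by simp)
    have hb := him b (by simp)
    have hc := him c (by simp)
    have hd := him d (by simp)
    have hr : ∀ x : ℝ, x ^ 4 + 7 * x ^ 3 + 13 * x ^ 2 + 8 * x + 2 =
        (x - a.re) * (x - b.re) * (x - c.re) * (x - d.re) := by
      intro x
      have h1 := heval (x : ℂ)
      have ea : a = (a.re : ℂ) := Complex.ext rfl (by simpa using ha)
      have eb : b = (b.re : ℂ) := Complex.ext rfl (by simpa using hb)
      have ec : c = (c.re : ℂ) := Complex.ext rfl (by simpa using hc)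
      have ed : d = (d.re : ℂ) := Complex.ext rfl (by simpa using hd)
      rw [ea, eb, ec, ed] at h1
      exact_mod_cast h1
    generalize a.re = a' at hr
    generalize b.re = b' at hr
    generalize c.re = c' at hr
    generalize d.re = d' at hr
    have h0 := hr 0
    have h1 := hr 1
    have h2 := hr (-1)
    have h3 := hr 2
    have e4 : a' * b' * c' * d' = 2 := by linarith
    have e2 : a' * b' + a' * c' + a' * d' + b' * c' + b' * d' + c' * d' = 13 := by linarith
    have e3 : b' * c' * d' + a' * c' * d' + a' * b' * d' + a' * b' * c' = -8 := by linarith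
    have key : (b' * c' * d' - a' * c' * d') ^ 2 + (b' * c' * d' - a' * b' * d') ^ 2 +
        (b' * c' * d' - a' * b' * c') ^ 2 + (a' * c' * d' - a' * b' * d') ^ 2 +
        (a' * c' * d' - a' * b' * c') ^ 2 + (a' * b' * d' - a' * b' * c') ^ 2 =
        3 * (b' * c' * d' + a' * c' * d' + a' * b' * d' + a' * b' * c') ^ 2 -
        8 * (a' * b' * c' * d') *
          (a' * b' + a' * c' + a' * d' + b' * c' + b' * d' + c' * d') := by ring
    rw [e2, e3, e4] at key
    have hpos : 0 ≤ (b' * c' * d' - a' * c' * d') ^ 2 + (b' * c' * d' - a' * b' * d') ^ 2 +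
        (b' * c' * d' - a' * b' * c') ^ 2 + (a' * c' * d' - a' * b' * d') ^ 2 +
        (a' * c' * d' - a' * b' * c') ^ 2 + (a' * b' * d' - a' * b' * c') ^ 2 := by positivity
    rw [key] at hpos
    norm_num at hpos

theorem result : ∃ (n : ℕ) (G : SimpleGraph (Fin n)), Chordal G ∧
    ∃ z : ℂ, (cyclePoly G).eval z = 0 ∧ z.im ≠ 0 := by
  obtain ⟨z, hz, him⟩ := exists_root
  refine ⟨5, gem, chordal_gem, z, ?_, him⟩
  rw [cyclePoly_gem, hz, mul_zero]

end Pool.Agent.Results.MP_efc620_co.GemGraph
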